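import Mathlib
import Pool.Agent.H24.Chaos.Main
import Pool.Agent.H24.Chaos.Erg

/-! None of the four notions of measure-theoretic chaos passes to extensions. -/

namespace Pool.Agent.Results.MP_e5a66a_an.ChaosExtensions

open MeasureTheory Pool.Agent.H24.Chaos

/-- There are an ergodic invertible system `M` with all four kinds of chaos and an ergodic invertible
system `N` with none of them such that `M` is a factor of `N` by a map all of whose fibres have
exactly two points; moreover `N` has a refining sequence of partitions without scrambled pairs. -/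
theorem result : ∃ M N : MPSystem,
    (∃ π : N.X → M.X, MeasurePreserving π N.μ M.μ ∧ (∀ y, π (N.T y) = M.T (π y)) ∧
      ∀ x, (π ⁻¹' {x}).ncard = 2) ∧ IsFactor M N ∧
    Function.Bijective M.T ∧ Function.Bijective N.T ∧ Ergodic M.T M.μ ∧ Ergodic N.T N.μ ∧
    (Chaotic M ∧ ChaoticPlus M ∧ UniformlyChaotic M ∧ UniformlyChaoticPlus M) ∧
    (∃ P, IsRefining N P ∧ ∀ y y', y ≠ y' → ¬ Scrambled N P y y') ∧
    ¬ Chaotic N ∧ ¬ ChaoticPlus N ∧ ¬ UniformlyChaotic N ∧ ¬ UniformlyChaoticPlus N := by
  have hN : ¬ Chaotic sysY := by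
    intro h
    obtain ⟨E, hE, hE'⟩ := h PY refining_Y
    apply hE
    refine Set.Subsingleton.countable fun x hx y hy => ?_
    by_contra hxy
    exact not_scrambled hxy (hE' hx hy hxy)
  have hmp : MeasurePreserving (Prod.fst : X × Bool → X) μY μX :=
    measurePreserving_fst (μ := μX) (ν := coin)
  refine ⟨sysX, sysY, ⟨Prod.fst, hmp, fun y => rfl, fun x => ?_⟩,
    ⟨Prod.fst, hmp, Filter.Eventually.of_forall fun y => rfl⟩, T_bijective pp, R_bijective,
    ergodic_T, ergodic_R,
    ⟨chaotic_X.plus.chaotic, chaotic_X.plus, chaotic_X.uniformly, chaotic_X⟩,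
    ⟨PY, refining_Y, fun y y' => not_scrambled⟩, hN, fun h => hN h.chaotic,
    fun h => hN h.chaotic, fun h => hN h.uniformly.chaotic⟩
  have key : ∀ x : X, (Prod.fst ⁻¹' {x} : Set (X × Bool)).ncard = 2 := fun x => by
    have : (Prod.fst ⁻¹' {x} : Set (X × Bool)) = {(x, true), (x, false)} := by
      ext ⟨a, b⟩
      cases b <;> simp
    rw [this]
    exact Set.ncard_pair (by simp)
  exact key x

end Pool.Agent.Results.MP_e5a66a_an.ChaosExtensions
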